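import Mathlib

set_option autoImplicit false
open MeasureTheory ProbabilityTheory
open scoped ENNReal

namespace Pool.Agent.MinTop828

abbrev Om := ℕ → Bool

/-- the fair coin -/
noncomputable def coin : Measure Bool := (PMF.uniformOfFintype Bool).toMeasure

instance : IsProbabilityMeasure coin := by unfold coin; infer_instance

lemma coin_true : coin {true} = 2⁻¹ := by
  unfold coin
  rw [PMF.toMeasure_apply_singleton _ _ (measurableSet_singleton _), PMF.uniformOfFintype_apply]
  simp

/-- infinitely many independent coins -/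
noncomputable def mu : Measure Om := Measure.infinitePi (fun _ => coin)

instance : IsProbabilityMeasure mu := by unfold mu; infer_instance

/-- `S` depends on the coordinates in `[a, b)` only -/
def Dep (a b : ℕ) (S : Set Om) : Prop :=
  ∀ w w' : Om, (∀ j, a ≤ j → j < b → w j = w' j) → (w ∈ S ↔ w' ∈ S)

lemma Dep.exists {a b : ℕ} {S : Set Om} (h : Dep a b S) :
    ∃ T : Set ((Finset.Ico a b) → Bool), S = (fun (w : Om) (i : Finset.Ico a b) => w i) ⁻¹' T := by
  refine ⟨(fun (w : Om) (i : Finset.Ico a b) => w i) '' S, ?_⟩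
  ext w
  constructor
  · intro hw
    exact ⟨w, hw, rfl⟩
  · rintro ⟨w', hw', h'⟩
    refine (h w' w ?_).mp hw'
    intro j h1 h2
    exact congrFun h' ⟨j, Finset.mem_Ico.mpr ⟨h1, h2⟩⟩

lemma measurable_rest (I : Finset ℕ) : Measurable (fun (w : Om) (i : I) => w i) := by
  fun_prop

lemma Dep.measurableSet {a b : ℕ} {S : Set Om} (h : Dep a b S) : MeasurableSet S := by
  obtain ⟨T, rfl⟩ := h.exists
  exact measurable_rest _ (Set.toFinite T).measurableSet

lemma Dep.mono {a b a' b' : ℕ} {S : Set Om} (h : Dep a b S) (h1 : a' ≤ a) (h2 : b ≤ b') :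
    Dep a' b' S := by
  intro w w' hw
  apply h
  intro j hj1 hj2
  exact hw j (h1.trans hj1) (hj2.trans_le h2)

lemma Dep.inter {a b : ℕ} {S S' : Set Om} (h : Dep a b S) (h' : Dep a b S') :
    Dep a b (S ∩ S') := by
  intro w w' hw
  have h1 := h w w' hw
  have h2 := h' w w' hw
  simp only [Set.mem_inter_iff]
  rw [h1, h2]

/-- independence -/
lemma Dep.indep {a b c d : ℕ} {S S' : Set Om} (h : Dep a b S) (h' : Dep c d S') (hbc : b ≤ c) :
    mu (S ∩ S') = mu S * mu S' := by
  obtain ⟨T, rfl⟩ := h.exists
  obtain ⟨T', rfl⟩ := h'.exists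
  have h1 : iIndepFun (fun (i : ℕ) (w : Om) => w i) mu :=
    iIndepFun_infinitePi (P := fun _ : ℕ => coin) (X := fun _ x => x) (fun _ => measurable_id)
  have h2 := h1.indepFun_finset (Finset.Ico a b) (Finset.Ico c d) (by
    rw [Finset.disjoint_left]
    intro i hi hi'
    rw [Finset.mem_Ico] at hi hi'
    omega) (fun i => measurable_pi_apply i)
  exact h2.measure_inter_preimage_eq_mul _ _ (Set.toFinite T).measurableSet
    (Set.toFinite T').measurableSet

/-- the event that `k` consecutive coins show `true` -/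
lemma mu_block (n k : ℕ) : mu {w : Om | ∀ i < k, w (n + i) = true} = (2⁻¹) ^ k := by
  have e : {w : Om | ∀ i < k, w (n + i) = true}
      = Set.pi ((Finset.Ico n (n + k) : Finset ℕ) : Set ℕ) (fun _ => ({true} : Set Bool)) := by
    ext w
    simp only [Set.mem_setOf_eq, Set.mem_pi, Finset.coe_Ico, Set.mem_Ico, Set.mem_singleton_iff]
    constructor
    · intro h i hi
      have := h (i - n) (by omega)
      rwa [show n + (i - n) = i by omega] at this
    · intro h i hi
      exact h (n + i) ⟨by omega, by omega⟩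
  rw [e, mu, Measure.infinitePi_pi _ (fun i _ => measurableSet_singleton _)]
  simp [coin_true]

end Pool.Agent.MinTop828
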