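import Mathlib

set_option autoImplicit false
open MvPolynomial

namespace Pool.Agent.MinTop828

/-- polynomials in countably many variables over `ℚ` -/
abbrev R := MvPolynomial ℕ ℚ
/-- rational functions in countably many variables over `ℚ` -/
abbrev K := FractionRing R
/-- the value group: finitely supported integer sequences, the largest index being the most
significant one -/
abbrev Ga := Colex (ℕ →₀ ℤ)
abbrev G0 := WithZero (Multiplicative Ga)

/-- the sign attached to a coin -/
def sg (w : ℕ → Bool) (j : ℕ) : ℤ := if w j then 1 else -1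

lemma sg_ne (w : ℕ → Bool) (j : ℕ) : sg w j ≠ 0 := by
  unfold sg; split_ifs <;> norm_num

/-- twisted exponent -/
noncomputable def D (w : ℕ → Bool) : (ℕ →₀ ℕ) →+ Ga where
  toFun a := toColex (Finsupp.onFinset a.support (fun j => sg w j * (a j : ℤ)) (by
    intro j hj
    rw [Finsupp.mem_support_iff]
    rintro h
    apply hj
    simp [h]))
  map_zero' := by
    apply_fun ofColex
    ext j
    simp
  map_add' a b := by
    apply_fun ofColex
    ext j
    simp [mul_add]

lemma D_apply (w : ℕ → Bool) (a : ℕ →₀ ℕ) (j : ℕ) : ofColex (D w a) j = sg w j * (a j : ℤ) := by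
  simp [D]

lemma D_inj (w : ℕ → Bool) : Function.Injective (D w) := by
  intro a b h
  ext j
  have h1 := D_apply w a j
  rw [h, D_apply w b j] at h1
  have := mul_left_cancel₀ (sg_ne w j) h1
  exact_mod_cast this.symm

/-- exponential -/
noncomputable def ex (a : Ga) : G0 := ((Multiplicative.ofAdd a : Multiplicative Ga) : G0)

lemma ex_zero : ex 0 = 1 := by simp [ex]

lemma ex_add (a b : Ga) : ex (a + b) = ex a * ex b := by
  simp [ex, ofAdd_add]

lemma ex_ne (a : Ga) : ex a ≠ 0 := by simp [ex]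

lemma ex_le {a b : Ga} : ex a ≤ ex b ↔ a ≤ b := by
  simp [ex]

lemma ex_lt {a b : Ga} : ex a < ex b ↔ a < b := by
  simp [ex]

/-- leading exponents -/
def IsTop (w : ℕ → Bool) (p : R) (a : ℕ →₀ ℕ) : Prop :=
  a ∈ p.support ∧ ∀ b ∈ p.support, D w b ≤ D w a

lemma exists_top (w : ℕ → Bool) {p : R} (hp : p ≠ 0) : ∃ a, IsTop w p a := by
  have h : p.support.Nonempty := by
    rw [Finset.nonempty_iff_ne_empty]
    intro h
    exact hp (MvPolynomial.support_eq_empty.mp h)
  obtain ⟨a, ha, hb⟩ := Finset.exists_max_image p.support (D w) h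
  exact ⟨a, ha, hb⟩

lemma IsTop.coeff_mul {w : ℕ → Bool} {p q : R} {a b : ℕ →₀ ℕ} (ha : IsTop w p a)
    (hb : IsTop w q b) : coeff (a + b) (p * q) = coeff a p * coeff b q := by
  rw [MvPolynomial.coeff_mul]
  apply Finset.sum_eq_single (a, b)
  · rintro ⟨c, d⟩ hcd hne
    rw [Finset.HasAntidiagonal.mem_antidiagonal] at hcd
    simp only at hcd ⊢
    by_contra hc
    have hc1 : c ∈ p.support := by
      rw [MvPolynomial.mem_support_iff]; exact left_ne_zero_of_mul hc
    have hd1 : d ∈ q.support := by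
      rw [MvPolynomial.mem_support_iff]; exact right_ne_zero_of_mul hc
    have h1 := ha.2 c hc1
    have h2 := hb.2 d hd1
    have h3 : D w c + D w d = D w a + D w b := by
      rw [← map_add, ← map_add, hcd]
    have h4 : D w c = D w a := by
      apply le_antisymm h1
      by_contra h5
      rw [not_le] at h5
      have := add_lt_add_of_lt_of_le h5 h2
      rw [h3] at this
      exact lt_irrefl _ this
    have h5 := D_inj w h4
    subst h5
    have h6 : d = b := add_left_cancel hcd
    exact hne (by rw [h6])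
  · intro h
    exfalso
    apply h
    rw [Finset.HasAntidiagonal.mem_antidiagonal]

lemma IsTop.coeff_ne {w : ℕ → Bool} {p : R} {a : ℕ →₀ ℕ} (ha : IsTop w p a) : coeff a p ≠ 0 := by
  have := ha.1
  rwa [MvPolynomial.mem_support_iff] at this

lemma IsTop.mul {w : ℕ → Bool} {p q : R} {a b : ℕ →₀ ℕ} (ha : IsTop w p a)
    (hb : IsTop w q b) : IsTop w (p * q) (a + b) := by
  refine ⟨?_, ?_⟩
  · rw [MvPolynomial.mem_support_iff, ha.coeff_mul hb]
    exact mul_ne_zero ha.coeff_ne hb.coeff_ne
  · intro c hc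
    have := MvPolynomial.support_mul p q hc
    rw [Finset.mem_add] at this
    obtain ⟨c1, h1, c2, h2, rfl⟩ := this
    rw [map_add, map_add]
    exact add_le_add (ha.2 c1 h1) (hb.2 c2 h2)

/-- the valuation on polynomials, as a function -/
noncomputable def vf (w : ℕ → Bool) (p : R) : G0 := p.support.sup (fun a => ex (D w a))

lemma IsTop.vf {w : ℕ → Bool} {p : R} {a : ℕ →₀ ℕ} (ha : IsTop w p a) : vf w p = ex (D w a) := by
  apply le_antisymm
  · apply Finset.sup_le
    intro b hb
    exact ex_le.mpr (ha.2 b hb)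
  · exact Finset.le_sup (f := fun a => ex (D w a)) ha.1

lemma vf_zero (w : ℕ → Bool) : vf w 0 = 0 := by
  simp [vf]

/-- the valuation on polynomials -/
noncomputable def vR (w : ℕ → Bool) : Valuation R G0 where
  toFun := vf w
  map_zero' := vf_zero w
  map_one' := by
    have h : IsTop w 1 0 := by
      refine ⟨?_, ?_⟩
      · rw [MvPolynomial.mem_support_iff]; simp
      · intro b hb
        rw [MvPolynomial.mem_support_iff, MvPolynomial.coeff_one] at hb
        have : b = 0 := by
          by_contra h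
          apply hb
          rw [if_neg (fun h' => h h'.symm)]
        rw [this]
    rw [h.vf, map_zero, ex_zero]
  map_mul' p q := by
    by_cases hp : p = 0
    · rw [hp, zero_mul, vf_zero, zero_mul]
    by_cases hq : q = 0
    · rw [hq, mul_zero, vf_zero, mul_zero]
    obtain ⟨a, ha⟩ := exists_top w hp
    obtain ⟨b, hb⟩ := exists_top w hq
    rw [(ha.mul hb).vf, ha.vf, hb.vf, map_add, ex_add]
  map_add_le_max' p q := by
    unfold vf
    apply Finset.sup_le
    intro a ha
    have := MvPolynomial.support_add ha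
    rw [Finset.mem_union] at this
    rcases this with h | h
    · exact le_max_of_le_left (Finset.le_sup (f := fun a => ex (D w a)) h)
    · exact le_max_of_le_right (Finset.le_sup (f := fun a => ex (D w a)) h)

lemma vR_apply (w : ℕ → Bool) (p : R) : vR w p = p.support.sup (fun a => ex (D w a)) := rfl

lemma IsTop.vR {w : ℕ → Bool} {p : R} {a : ℕ →₀ ℕ} (ha : IsTop w p a) : vR w p = ex (D w a) :=
  ha.vf

lemma vR_ne (w : ℕ → Bool) {p : R} (hp : p ≠ 0) : vR w p ≠ 0 := by
  obtain ⟨a, ha⟩ := exists_top w hp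
  rw [ha.vR]
  exact ex_ne _

lemma hS (w : ℕ → Bool) : nonZeroDivisors R ≤ (vR w).supp.primeCompl := by
  intro p hp
  have hp0 : p ≠ 0 := nonZeroDivisors.ne_zero hp
  show p ∉ (vR w).supp
  rw [Valuation.mem_supp_iff]
  exact vR_ne w hp0

/-- the valuation on rational functions -/
noncomputable def v (w : ℕ → Bool) : Valuation K G0 := (vR w).extendToLocalization (hS w) K

lemma v_algebraMap (w : ℕ → Bool) (p : R) : v w (algebraMap R K p) = vR w p :=
  Valuation.extendToLocalization_apply_map_apply _ _ _ _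

lemma exists_frac (x : K) : ∃ p q : R, q ≠ 0 ∧ x = algebraMap R K p / algebraMap R K q := by
  obtain ⟨p, q, hq, rfl⟩ := IsFractionRing.div_surjective (A := R) x
  exact ⟨p, q, nonZeroDivisors.ne_zero hq, rfl⟩

lemma am_ne {q : R} (hq : q ≠ 0) : algebraMap R K q ≠ 0 := by
  intro h
  apply hq
  exact (IsFractionRing.injective R K) (by rw [h, map_zero])

/-! ### positivity -/

def Pos (w : ℕ → Bool) (p : R) : Prop := ∃ a, IsTop w p a ∧ 0 < coeff a p

lemma Pos.ne {w : ℕ → Bool} {p : R} (h : Pos w p) : p ≠ 0 := by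
  rintro rfl
  obtain ⟨a, _, h2⟩ := h
  simp at h2

lemma Pos.mul {w : ℕ → Bool} {p q : R} (hp : Pos w p) (hq : Pos w q) : Pos w (p * q) := by
  obtain ⟨a, ha, ha'⟩ := hp
  obtain ⟨b, hb, hb'⟩ := hq
  exact ⟨a + b, ha.mul hb, by rw [ha.coeff_mul hb]; exact mul_pos ha' hb'⟩

lemma Pos.add_aux {w : ℕ → Bool} {p q : R} {a b : ℕ →₀ ℕ} (ha : IsTop w p a)
    (ha' : 0 < coeff a p) (hb : IsTop w q b) (hb' : 0 < coeff b q) (hab : D w a ≤ D w b) :
    Pos w (p + q) ∧ vR w (p + q) = ex (D w b) := by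
  have hpos : 0 < coeff b (p + q) := by
    rw [MvPolynomial.coeff_add]
    have : 0 ≤ coeff b p := by
      by_cases hab' : a = b
      · rw [← hab']; exact ha'.le
      · have : coeff b p = 0 := by
          by_contra h
          have h1 := ha.2 b (by rw [MvPolynomial.mem_support_iff]; exact h)
          exact hab' (D_inj w (le_antisymm hab h1))
        rw [this]
    linarith
  have htop : IsTop w (p + q) b := by
    refine ⟨by rw [MvPolynomial.mem_support_iff]; exact hpos.ne', ?_⟩
    intro c hc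
    have := MvPolynomial.support_add hc
    rw [Finset.mem_union] at this
    rcases this with h | h
    · exact (ha.2 c h).trans hab
    · exact hb.2 c h
  exact ⟨⟨b, htop, hpos⟩, htop.vR⟩

lemma Pos.add {w : ℕ → Bool} {p q : R} (hp : Pos w p) (hq : Pos w q) :
    Pos w (p + q) ∧ vR w p ≤ vR w (p + q) := by
  obtain ⟨a, ha, ha'⟩ := hp
  obtain ⟨b, hb, hb'⟩ := hq
  rcases le_total (D w a) (D w b) with h | h
  · obtain ⟨h1, h2⟩ := Pos.add_aux ha ha' hb hb' h
    refine ⟨h1, ?_⟩
    rw [h2, ha.vR]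
    exact ex_le.mpr h
  · obtain ⟨h1, h2⟩ := Pos.add_aux hb hb' ha ha' h
    rw [add_comm] at h1 h2
    refine ⟨h1, ?_⟩
    rw [h2, ha.vR]

lemma Pos.sq {w : ℕ → Bool} {p : R} (hp : p ≠ 0) : Pos w (p * p) := by
  obtain ⟨a, ha⟩ := exists_top w hp
  exact ⟨a + a, ha.mul ha, by rw [ha.coeff_mul ha]; exact mul_self_pos.mpr ha.coeff_ne⟩

def PosK (w : ℕ → Bool) (x : K) : Prop :=
  ∃ p q : R, Pos w p ∧ Pos w q ∧ x = algebraMap R K p / algebraMap R K q

lemma PosK.add {w : ℕ → Bool} {x y : K} (hx : PosK w x) (hy : PosK w y) :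
    PosK w (x + y) ∧ v w x ≤ v w (x + y) := by
  obtain ⟨p, q, hp, hq, rfl⟩ := hx
  obtain ⟨p', q', hp', hq', rfl⟩ := hy
  have e1 : algebraMap R K p / algebraMap R K q + algebraMap R K p' / algebraMap R K q'
      = algebraMap R K (p * q' + q * p') / algebraMap R K (q * q') := by
    rw [div_add_div _ _ (am_ne hq.ne) (am_ne hq'.ne)]
    simp only [map_add, map_mul]
  have e2 : algebraMap R K p / algebraMap R K q
      = algebraMap R K (p * q') / algebraMap R K (q * q') := by
    rw [map_mul, map_mul, mul_div_mul_right _ _ (am_ne hq'.ne)]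
  obtain ⟨h1, h2⟩ := (hp.mul hq').add (hq.mul hp')
  refine ⟨⟨_, _, h1, hq.mul hq', e1⟩, ?_⟩
  rw [e1, e2, map_div₀, map_div₀, v_algebraMap, v_algebraMap, v_algebraMap]
  exact div_le_div_of_nonneg_right h2 zero_le

lemma PosK.sq {w : ℕ → Bool} {x : K} (hx : x ≠ 0) : PosK w (x * x) := by
  obtain ⟨p, q, hq, rfl⟩ := exists_frac x
  have hp : p ≠ 0 := by
    rintro rfl
    apply hx
    simp
  exact ⟨p * p, q * q, Pos.sq hp, Pos.sq hq, by rw [map_mul, map_mul, mul_div_mul_comm]⟩

/-- sums of squares -/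
def NN (x : K) : Prop := ∀ w, x = 0 ∨ PosK w x

lemma NN.zero : NN 0 := fun _ => Or.inl rfl

lemma NN.sq (x : K) : NN (x * x) := by
  intro w
  by_cases hx : x = 0
  · left; rw [hx, mul_zero]
  · right; exact PosK.sq hx

lemma NN.add {x y : K} (hx : NN x) (hy : NN y) : NN (x + y) := by
  intro w
  rcases hx w with rfl | h1
  · rw [zero_add]; exact hy w
  rcases hy w with rfl | h2
  · rw [add_zero]; right; exact h1
  right
  exact (h1.add h2).1

lemma NN.le {x y : K} (hx : NN x) (hy : NN y) (w : ℕ → Bool) : v w x ≤ v w (x + y) := by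
  rcases hx w with rfl | h1
  · rw [map_zero]; exact zero_le
  rcases hy w with rfl | h2
  · rw [add_zero]
  exact (h1.add h2).2

/-! ### the projections -/

/-- forget the coordinates below `n` -/
noncomputable def pj (n : ℕ) : Ga →+ Ga where
  toFun a := toColex ((ofColex a).filter (fun j => n ≤ j))
  map_zero' := by
    apply_fun ofColex
    ext j
    simp [Finsupp.filter_apply]
  map_add' a b := by
    apply_fun ofColex
    ext j
    simp [Finsupp.filter_add]

lemma pj_apply (n : ℕ) (a : Ga) (j : ℕ) :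
    ofColex (pj n a) j = if n ≤ j then ofColex a j else 0 := by
  simp [pj, Finsupp.filter_apply]

lemma pj_mono (n : ℕ) : Monotone (pj n) := by
  intro a b hab
  rcases hab.eq_or_lt with h | h
  · rw [h]
  rw [Finsupp.Colex.lt_iff] at h
  obtain ⟨i, h1, h2⟩ := h
  by_cases hi : n ≤ i
  · apply le_of_lt
    rw [Finsupp.Colex.lt_iff]
    refine ⟨i, ?_, ?_⟩
    · intro j hj
      show ofColex (pj n a) j = ofColex (pj n b) j
      rw [pj_apply, pj_apply]
      split_ifs
      · exact h1 j hj
      · rfl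
    · show ofColex (pj n a) i < ofColex (pj n b) i
      rw [pj_apply, pj_apply, if_pos hi, if_pos hi]
      exact h2
  · apply le_of_eq
    apply_fun ofColex
    ext j
    rw [pj_apply, pj_apply]
    split_ifs with hj
    · exact h1 j (by omega)
    · rfl

/-- the projection on the value group with zero -/
noncomputable def pi (n : ℕ) : G0 →*₀ G0 := WithZero.map' (AddMonoidHom.toMultiplicative (pj n))

lemma pi_ex (n : ℕ) (a : Ga) : pi n (ex a) = ex (pj n a) := by
  simp [pi, ex]

lemma pi_mono (n : ℕ) : Monotone (pi n) := by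
  intro a b hab
  rcases eq_or_ne a 0 with rfl | ha
  · rw [map_zero]; exact zero_le
  have hb : b ≠ 0 := by
    rintro rfl
    exact ha (le_antisymm hab (zero_le))
  obtain ⟨a', rfl⟩ : ∃ a', a = ex a' := by
    obtain ⟨a', ha'⟩ := WithZero.ne_zero_iff_exists.mp ha
    exact ⟨a'.toAdd, ha'.symm⟩
  obtain ⟨b', rfl⟩ : ∃ b', b = ex b' := by
    obtain ⟨b', hb'⟩ := WithZero.ne_zero_iff_exists.mp hb
    exact ⟨b'.toAdd, hb'.symm⟩
  rw [pi_ex, pi_ex, ex_le]
  exact pj_mono n (ex_le.mp hab)

/-- the valuation with residue field the rational functions in the first `n` variables -/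
noncomputable def V (n : ℕ) (w : ℕ → Bool) : Valuation K G0 := (v w).map (pi n) (pi_mono n)

lemma V_apply (n : ℕ) (w : ℕ → Bool) (x : K) : V n w x = pi n (v w x) := rfl

lemma pj_pj {m n : ℕ} (h : m ≤ n) (a : Ga) : pj n (pj m a) = pj n a := by
  apply_fun ofColex
  ext j
  rw [pj_apply, pj_apply, pj_apply]
  split_ifs <;> first | rfl | omega

lemma pi_pi {m n : ℕ} (h : m ≤ n) (a : G0) : pi n (pi m a) = pi n a := by
  rcases eq_or_ne a 0 with rfl | ha
  · simp
  obtain ⟨a', rfl⟩ : ∃ a', a = ex a' := by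
    obtain ⟨a', ha'⟩ := WithZero.ne_zero_iff_exists.mp ha
    exact ⟨a'.toAdd, ha'.symm⟩
  rw [pi_ex, pi_ex, pi_ex, pj_pj h]

/-- F2 -/
lemma V_one_le {m n : ℕ} (h : m ≤ n) {w : ℕ → Bool} {x : K} (hx : 1 ≤ V m w x) : 1 ≤ V n w x := by
  have := pi_mono n hx
  rw [map_one, V_apply, pi_pi h] at this
  exact this

lemma V_lt_one {m n : ℕ} (h : m ≤ n) {w : ℕ → Bool} {x : K} (hx : V n w x < 1) : V m w x < 1 := by
  by_contra h'
  rw [not_lt] at h'
  exact absurd (V_one_le h h') (not_le.mpr hx)

lemma V_one_lt {m n : ℕ} (h : m ≤ n) {w : ℕ → Bool} {x : K} (hx : 1 < V n w x) : 1 < V m w x := by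
  have hx0 : x ≠ 0 := by
    rintro rfl
    rw [map_zero] at hx
    exact absurd hx (not_lt.mpr (zero_le))
  have h1 : V n w x⁻¹ < 1 := by
    rw [map_inv₀]
    exact inv_lt_one_of_one_lt₀ hx
  have h2 := V_lt_one h h1
  rw [map_inv₀] at h2
  have h3 : V m w x ≠ 0 := by rwa [Valuation.ne_zero_iff]
  by_contra h4
  rw [not_lt] at h4
  have h5 : 1 ≤ (V m w x)⁻¹ := (one_le_inv₀ (zero_lt_iff.mpr h3)).mpr h4
  exact absurd h2 (not_lt.mpr h5)

/-- F5 -/
lemma NN.V_le {x y : K} (hx : NN x) (hy : NN y) (n : ℕ) (w : ℕ → Bool) :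
    V n w x ≤ V n w (x + y) := pi_mono n (hx.le hy w)

lemma NN.V_le' {x y : K} (hx : NN x) (hy : NN y) (n : ℕ) (w : ℕ → Bool) :
    V n w y ≤ V n w (x + y) := by
  rw [add_comm]; exact hy.V_le hx n w

/-- polynomials in the first `N` variables -/
def Low (N : ℕ) (p : R) : Prop := ∀ a ∈ p.support, ∀ j, N ≤ j → a j = 0

lemma Low.mono {N M : ℕ} (h : N ≤ M) {p : R} (hp : Low N p) : Low M p :=
  fun a ha j hj => hp a ha j (h.trans hj)

lemma exists_low (p : R) : ∃ N, Low N p := by
  refine ⟨p.support.sup (fun a => a.support.sup (fun j => j + 1)), ?_⟩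
  intro a ha j hj
  by_contra h
  have h1 : j ∈ a.support := by rw [Finsupp.mem_support_iff]; exact h
  have h2 : j + 1 ≤ a.support.sup (fun j => j + 1) := Finset.le_sup (f := fun j => j + 1) h1
  have h3 : a.support.sup (fun j => j + 1) ≤ p.support.sup (fun a => a.support.sup (fun j => j + 1)) :=
    Finset.le_sup (f := fun a : ℕ →₀ ℕ => a.support.sup (fun j => j + 1)) ha
  omega

lemma pi_vR (n : ℕ) (w : ℕ → Bool) (p : R) :
    pi n (vR w p) = p.support.sup (fun a => ex (pj n (D w a))) := by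
  rw [vR_apply]
  have h := Finset.apply_sup_eq_sup_comp_of_linearOrder (s := p.support)
    (f := fun a => ex (D w a)) (pi n) (pi_mono n) (by exact map_zero (pi n))
  rw [h]
  apply Finset.sup_congr rfl
  intro a _
  simp [pi_ex]

/-- rational functions in the first `N` variables -/
def LowK (N : ℕ) (x : K) : Prop :=
  ∃ p q : R, Low N p ∧ Low N q ∧ q ≠ 0 ∧ x = algebraMap R K p / algebraMap R K q

lemma LowK.mono {N M : ℕ} (h : N ≤ M) {x : K} (hx : LowK N x) : LowK M x := by
  obtain ⟨p, q, h1, h2, h3, h4⟩ := hx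
  exact ⟨p, q, h1.mono h, h2.mono h, h3, h4⟩

lemma exists_lowK (x : K) : ∃ N, LowK N x := by
  obtain ⟨p, q, hq, hx⟩ := exists_frac x
  obtain ⟨N, hN⟩ := exists_low p
  obtain ⟨M, hM⟩ := exists_low q
  exact ⟨max N M, p, q, hN.mono (le_max_left _ _), hM.mono (le_max_right _ _), hq, hx⟩

/-- F3 -/
lemma V_congr {n N : ℕ} {x : K} (hx : LowK N x) {w w' : ℕ → Bool}
    (h : ∀ j, n ≤ j → j < N → w j = w' j) : V n w x = V n w' x := by
  obtain ⟨p, q, h1, h2, _, rfl⟩ := hx
  have key : ∀ p : R, Low N p → pi n (vR w p) = pi n (vR w' p) := by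
    intro p hp
    rw [pi_vR, pi_vR]
    apply Finset.sup_congr rfl
    intro a ha
    congr 1
    apply_fun ofColex
    ext j
    rw [pj_apply, pj_apply, D_apply, D_apply]
    split_ifs with hj
    · by_cases hj2 : j < N
      · unfold sg; rw [h j hj hj2]
      · rw [hp a ha j (by omega)]; simp
    · rfl
  rw [map_div₀, map_div₀]
  simp only [V_apply, v_algebraMap]
  rw [key p h1, key q h2]

/-- F1 -/
lemma V_low {n : ℕ} {x : K} (hx : LowK n x) (hx0 : x ≠ 0) (w : ℕ → Bool) : V n w x = 1 := by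
  obtain ⟨p, q, h1, h2, hq, rfl⟩ := hx
  have hp : p ≠ 0 := by
    rintro rfl
    apply hx0
    simp
  have key : ∀ p : R, Low n p → p ≠ 0 → pi n (vR w p) = 1 := by
    intro p hp hp0
    obtain ⟨a, ha⟩ := exists_top w hp0
    rw [ha.vR, pi_ex, ← ex_zero]
    congr 1
    apply_fun ofColex
    ext j
    rw [pj_apply, D_apply]
    split_ifs with hj
    · rw [hp a ha.1 j hj]; simp
    · simp
  rw [map_div₀]
  simp only [V_apply, v_algebraMap]
  rw [key p h1 hp, key q h2 hq, div_one]

/-- the variables -/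
noncomputable def T (n : ℕ) : K := algebraMap R K (X n)

lemma T_ne (n : ℕ) : T n ≠ 0 := am_ne (MvPolynomial.X_ne_zero n)

lemma lowT (n : ℕ) : Low (n + 1) (X n : R) := by
  intro a ha j hj
  rw [MvPolynomial.mem_support_iff, MvPolynomial.coeff_X] at ha
  have : Finsupp.single n 1 = a := by
    by_contra h
    apply ha
    rw [if_neg h]
  rw [← this, Finsupp.single_apply, if_neg (by omega)]

lemma lowKT (n : ℕ) : LowK (n + 1) (T n) := by
  refine ⟨X n, 1, lowT n, ?_, one_ne_zero, by simp [T]⟩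
  intro a ha j hj
  rw [MvPolynomial.mem_support_iff, MvPolynomial.coeff_one] at ha
  have : 0 = a := by
    by_contra h
    apply ha
    rw [if_neg h]
  rw [← this]; simp

lemma topT (w : ℕ → Bool) (n : ℕ) : IsTop w (X n) (Finsupp.single n 1) := by
  refine ⟨?_, ?_⟩
  · rw [MvPolynomial.mem_support_iff]; simp
  · intro b hb
    rw [MvPolynomial.mem_support_iff, MvPolynomial.coeff_X] at hb
    have : Finsupp.single n 1 = b := by
      by_contra h
      apply hb
      rw [if_neg h]
    rw [this]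

lemma V_T (n m : ℕ) (hnm : n ≤ m) (w : ℕ → Bool) :
    V n w (T m) = ex (toColex (Finsupp.single m (sg w m))) := by
  rw [V_apply, T, v_algebraMap, (topT w m).vR, pi_ex]
  congr 1
  apply_fun ofColex
  ext j
  rw [pj_apply, D_apply]
  simp only [ofColex_toColex, Finsupp.single_apply]
  by_cases hj : m = j
  · subst hj; simp [hnm]
  · simp [hj]

lemma single_pos (m : ℕ) : (0 : Ga) < toColex (Finsupp.single m (1 : ℤ)) := by
  rw [Finsupp.Colex.lt_iff]
  refine ⟨m, ?_, ?_⟩
  · intro j hj
    show (0 : ℤ) = Finsupp.single m (1 : ℤ) j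
    rw [Finsupp.single_apply, if_neg (by omega)]
  · show (0 : ℤ) < Finsupp.single m (1 : ℤ) m
    simp

lemma V_T_true {n m : ℕ} (hnm : n ≤ m) {w : ℕ → Bool} (hw : w m = true) : 1 < V n w (T m) := by
  rw [V_T n m hnm, ← ex_zero, ex_lt]
  have : sg w m = 1 := by simp [sg, hw]
  rw [this]
  exact single_pos m

lemma V_T_false {n m : ℕ} (hnm : n ≤ m) {w : ℕ → Bool} (hw : w m = false) : V n w (T m) < 1 := by
  rw [V_T n m hnm, ← ex_zero, ex_lt]
  have : sg w m = -1 := by simp [sg, hw]
  rw [this, Finsupp.single_neg]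
  exact neg_lt_zero.mpr (single_pos m)

end Pool.Agent.MinTop828
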