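import Mathlib
import Pool.Agent.MinTop828.Val
import Pool.Agent.MinTop828.Prob

set_option autoImplicit false
open MvPolynomial MeasureTheory ProbabilityTheory Filter Topology
open scoped ENNReal Pointwise

namespace Pool.Agent.MinTop828

/-! ### two families of elements -/

/-- F4: an element which is small for all coins -/
noncomputable def dd (n : ℕ) : K := T n / (1 + T n * T n)

lemma NN.one : NN (1 : K) := by
  have := NN.sq (1 : K)
  rwa [one_mul] at this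

lemma one_add_ne (n : ℕ) : (1 + T n * T n : K) ≠ 0 := by
  intro h
  have h1 := NN.V_le NN.one (NN.sq (T n)) 0 (fun _ => true)
  rw [h, map_one, map_zero] at h1
  exact absurd h1 (not_le.mpr one_pos')
where one_pos' : (0 : G0) < 1 := zero_lt_iff.mpr one_ne_zero

lemma dd_ne (n : ℕ) : dd n ≠ 0 := div_ne_zero (T_ne n) (one_add_ne n)

lemma V_dd (n : ℕ) (w : ℕ → Bool) : V n w (dd n) < 1 := by
  have h1 := NN.V_le NN.one (NN.sq (T n)) n w
  have h2 := NN.V_le' NN.one (NN.sq (T n)) n w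
  rw [map_one] at h1
  rw [map_mul] at h2
  unfold dd
  rw [map_div₀]
  have h3 : V n w (1 + T n * T n) ≠ 0 := (Valuation.ne_zero_iff _).mpr (one_add_ne n)
  rw [div_lt_one₀ (zero_lt_iff.mpr h3)]
  rcases hw : w n with _ | _
  · exact (V_T_false le_rfl hw).trans_le h1
  · have h4 := V_T_true le_rfl hw
    refine lt_of_lt_of_le ?_ h2
    have h5 : V n w (T n) ≠ 0 := (Valuation.ne_zero_iff _).mpr (T_ne n)
    calc V n w (T n) = V n w (T n) * 1 := (mul_one _).symm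
      _ < V n w (T n) * V n w (T n) := by
        exact (mul_lt_mul_iff_right₀ (zero_lt_iff.mpr h5)).mpr h4

/-- sum of inverse squares of `k + 1` consecutive variables -/
noncomputable def SS (n : ℕ) : ℕ → K
  | 0 => (T n)⁻¹ * (T n)⁻¹
  | (k + 1) => SS n k + (T (n + (k + 1)))⁻¹ * (T (n + (k + 1)))⁻¹

lemma NN_SS (n k : ℕ) : NN (SS n k) := by
  induction k with
  | zero => exact NN.sq _
  | succ k ih => exact ih.add (NN.sq _)

lemma V_Tinv_lt {n m : ℕ} (hnm : n ≤ m) {w : ℕ → Bool} (hw : w m = true) :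
    V n w ((T m)⁻¹ * (T m)⁻¹) < 1 := by
  have h := V_T_true hnm hw
  have h1 : (V n w (T m))⁻¹ < 1 := inv_lt_one_of_one_lt₀ h
  rw [map_mul, map_inv₀]
  exact mul_lt_one_of_nonneg_of_lt_one_left zero_le h1 h1.le

lemma V_Tinv_gt {n m : ℕ} (hnm : n ≤ m) {w : ℕ → Bool} (hw : w m = false) :
    1 < V n w ((T m)⁻¹ * (T m)⁻¹) := by
  have h := V_T_false hnm hw
  have h5 : V n w (T m) ≠ 0 := (Valuation.ne_zero_iff _).mpr (T_ne m)
  have h1 : 1 < (V n w (T m))⁻¹ := (one_lt_inv₀ (zero_lt_iff.mpr h5)).mpr h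
  rw [map_mul, map_inv₀]
  exact one_lt_mul_of_lt_of_le h1 h1.le

lemma V_SS_lt {n k : ℕ} {w : ℕ → Bool} (hw : ∀ i < k + 1, w (n + i) = true) :
    V n w (SS n k) < 1 := by
  induction k with
  | zero => exact V_Tinv_lt le_rfl (hw 0 (by omega))
  | succ k ih =>
    refine lt_of_le_of_lt ((V n w).map_add _ _) (max_lt (ih fun i hi => hw i (by omega)) ?_)
    exact V_Tinv_lt (by omega) (hw (k + 1) (by omega))

lemma V_SS_gt {n k : ℕ} {w : ℕ → Bool} (hw : ∃ i < k + 1, w (n + i) = false) :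
    1 < V n w (SS n k) := by
  induction k with
  | zero =>
    obtain ⟨i, hi, hw⟩ := hw
    have : i = 0 := by omega
    subst this
    exact V_Tinv_gt le_rfl hw
  | succ k ih =>
    obtain ⟨i, hi, hw⟩ := hw
    by_cases hik : i < k + 1
    · exact lt_of_lt_of_le (ih ⟨i, hik, hw⟩) ((NN_SS n k).V_le (NN.sq _) n w)
    · have : i = k + 1 := by omega
      subst this
      exact lt_of_lt_of_le (V_Tinv_gt (by omega) hw) ((NN_SS n k).V_le' (NN.sq _) n w)

lemma SS_ne (n k : ℕ) : SS n k ≠ 0 := by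
  intro h
  have h1 : 1 < V n (fun _ => false) (SS n k) := V_SS_gt ⟨0, by omega, rfl⟩
  rw [h, map_zero] at h1
  exact absurd h1 (not_lt.mpr zero_le)

/-! ### the topology -/

/-- the basic neighbourhoods of zero -/
def U (n : ℕ) (ε : ℝ≥0∞) : Set K := {x | mu {w | ¬ V n w x < 1} < ε}

lemma mem_U {n : ℕ} {ε : ℝ≥0∞} {x : K} : x ∈ U n ε ↔ mu {w | ¬ V n w x < 1} < ε := Iff.rfl

lemma mem_U_of_forall {n : ℕ} {ε : ℝ≥0∞} (hε : 0 < ε) {x : K} (h : ∀ w, V n w x < 1) :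
    x ∈ U n ε := by
  rw [mem_U]
  have : {w : Om | ¬ V n w x < 1} = ∅ := by
    ext w; simp [h w]
  rw [this, measure_empty]
  exact hε

lemma U_mono {m n : ℕ} (h : m ≤ n) {δ ε : ℝ≥0∞} (h' : δ ≤ ε) : U n δ ⊆ U m ε := by
  intro x hx
  rw [mem_U] at hx ⊢
  refine lt_of_le_of_lt (measure_mono ?_) (hx.trans_le h')
  intro w hw
  simp only [Set.mem_ofPred_eq] at hw ⊢
  exact fun h1 => hw (V_lt_one h h1)

lemma U_two {n : ℕ} {ε : ℝ≥0∞} {x y z : K} (hx : x ∈ U n (ε / 2)) (hy : y ∈ U n (ε / 2))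
    (h : ∀ w, V n w x < 1 → V n w y < 1 → V n w z < 1) : z ∈ U n ε := by
  rw [mem_U] at hx hy ⊢
  have : {w : Om | ¬ V n w z < 1} ⊆ {w | ¬ V n w x < 1} ∪ {w | ¬ V n w y < 1} := by
    intro w hw
    by_contra h'
    rw [Set.mem_union, not_or] at h'
    simp only [Set.mem_ofPred_eq, not_not] at h'
    exact hw (h w h'.1 h'.2)
  calc mu {w : Om | ¬ V n w z < 1} ≤ _ := measure_mono this
    _ ≤ _ := measure_union_le _ _
    _ < ε / 2 + ε / 2 := ENNReal.add_lt_add hx hy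
    _ = ε := ENNReal.add_halves ε

lemma U_zero {n : ℕ} {ε : ℝ≥0∞} (hε : 0 < ε) : (0 : K) ∈ U n ε := by
  apply mem_U_of_forall hε
  intro w
  rw [map_zero]
  exact zero_lt_iff.mpr one_ne_zero

lemma U_one {n : ℕ} {ε : ℝ≥0∞} {x z : K} (hx : x ∈ U n ε)
    (h : ∀ w, V n w x < 1 → V n w z < 1) : z ∈ U n ε := by
  rw [mem_U] at hx ⊢
  refine lt_of_le_of_lt (measure_mono ?_) hx
  intro w hw h'
  exact hw (h w h')

lemma U_mul_left (x₀ : K) (n : ℕ) (ε : ℝ≥0∞) : ∃ m, U m ε ⊆ (fun x ↦ x₀ * x) ⁻¹' U n ε := by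
  obtain ⟨N, hN⟩ := exists_lowK x₀
  refine ⟨max n N, ?_⟩
  intro x hx
  show x₀ * x ∈ U n ε
  apply U_mono (le_max_left n N) le_rfl
  refine U_one hx ?_
  intro w hw
  rw [map_mul]
  by_cases h0 : x₀ = 0
  · rw [h0, map_zero, zero_mul]
    exact zero_lt_iff.mpr one_ne_zero
  · rw [V_low (hN.mono (le_max_right n N)) h0, one_mul]
    exact hw

lemma half_pos' {ε : ℝ≥0∞} (h : 0 < ε) : 0 < ε / 2 := ENNReal.half_pos h.ne'

@[instance_reducible]
noncomputable def B : RingFilterBasis K where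
  sets := {s | ∃ (n : ℕ) (ε : ℝ≥0∞), 0 < ε ∧ s = U n ε}
  nonempty := ⟨U 0 1, 0, 1, one_pos, rfl⟩
  inter_sets := by
    rintro _ _ ⟨n, ε, hε, rfl⟩ ⟨m, δ, hδ, rfl⟩
    refine ⟨U (max n m) (min ε δ), ⟨_, _, lt_min hε hδ, rfl⟩, ?_⟩
    exact Set.subset_inter (U_mono (le_max_left _ _) (min_le_left _ _))
      (U_mono (le_max_right _ _) (min_le_right _ _))
  zero' := by
    rintro _ ⟨n, ε, hε, rfl⟩
    exact U_zero hε
  add' := by
    rintro _ ⟨n, ε, hε, rfl⟩
    refine ⟨U n (ε / 2), ⟨_, _, half_pos' hε, rfl⟩, ?_⟩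
    rintro _ ⟨x, hx, y, hy, rfl⟩
    refine U_two hx hy ?_
    intro w h1 h2
    exact lt_of_le_of_lt ((V n w).map_add x y) (max_lt h1 h2)
  neg' := by
    rintro _ ⟨n, ε, hε, rfl⟩
    refine ⟨U n ε, ⟨_, _, hε, rfl⟩, ?_⟩
    intro x hx
    refine U_one hx ?_
    intro w h
    rw [Valuation.map_neg]
    exact h
  conj' := by
    rintro x₀ _ ⟨n, ε, hε, rfl⟩
    refine ⟨U n ε, ⟨_, _, hε, rfl⟩, ?_⟩
    intro x hx
    show x₀ + x + -x₀ ∈ U n ε
    rwa [show x₀ + x + -x₀ = x by ring]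
  mul' := by
    rintro _ ⟨n, ε, hε, rfl⟩
    refine ⟨U n (ε / 2), ⟨_, _, half_pos' hε, rfl⟩, ?_⟩
    rintro _ ⟨x, hx, y, hy, rfl⟩
    refine U_two hx hy ?_
    intro w h1 h2
    show V n w (x * y) < 1
    rw [map_mul]
    exact mul_lt_one_of_nonneg_of_lt_one_left zero_le h1 h2.le
  mul_left' := by
    rintro x₀ _ ⟨n, ε, hε, rfl⟩
    obtain ⟨m, hm⟩ := U_mul_left x₀ n ε
    exact ⟨U m ε, ⟨_, _, hε, rfl⟩, hm⟩
  mul_right' := by
    rintro x₀ _ ⟨n, ε, hε, rfl⟩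
    obtain ⟨m, hm⟩ := U_mul_left x₀ n ε
    refine ⟨U m ε, ⟨_, _, hε, rfl⟩, ?_⟩
    intro x hx
    show x * x₀ ∈ U n ε
    rw [mul_comm]
    exact hm hx

/-- the topology -/
noncomputable abbrev tau : TopologicalSpace K := B.topology

lemma tau_basis : (@nhds K tau 0).HasBasis (fun s => s ∈ B.sets) id :=
  B.toAddGroupFilterBasis.nhds_zero_hasBasis

lemma mem_tau {s : Set K} : s ∈ @nhds K tau 0 ↔ ∃ (n : ℕ) (ε : ℝ≥0∞), 0 < ε ∧ U n ε ⊆ s := by
  rw [tau_basis.mem_iff]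
  constructor
  · rintro ⟨_, ⟨n, ε, hε, rfl⟩, h⟩
    exact ⟨n, ε, hε, h⟩
  · rintro ⟨n, ε, hε, h⟩
    exact ⟨_, ⟨n, ε, hε, rfl⟩, h⟩

lemma tau_ring : @IsTopologicalRing K tau _ := B.isTopologicalRing

lemma V_inv_aux {n : ℕ} {w : ℕ → Bool} {y : K} (h : V n w y < 1) :
    V n w ((1 + y)⁻¹ - 1) < 1 := by
  have h1 : V n w (1 + y) = 1 := Valuation.map_one_add_of_lt _ h
  have h2 : (1 + y : K) ≠ 0 := by
    intro h3
    rw [h3, map_zero] at h1
    exact zero_ne_one h1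
  have h3 : (1 + y)⁻¹ - 1 = -(y * (1 + y)⁻¹) := by
    field_simp
    ring
  rw [h3, Valuation.map_neg, map_mul, map_inv₀, h1, inv_one, mul_one]
  exact h

lemma tau_field : @IsTopologicalDivisionRing K _ tau := by
  let t := tau
  have h1 : IsTopologicalRing K := tau_ring
  have h2 : ContinuousInv₀ K := by
    apply ContinuousInv₀.of_nhds_one
    rw [← tendsto_sub_nhds_zero_iff]
    rw [← map_add_left_nhds_zero (1 : K), tendsto_map'_iff]
    intro s hs
    obtain ⟨n, ε, hε, hU⟩ := mem_tau.mp hs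
    refine mem_tau.mpr ⟨n, ε, hε, ?_⟩
    intro y hy
    apply hU
    exact U_one hy fun w hw => V_inv_aux hw
  exact {}

lemma tau_t2 : @T2Space K tau := by
  let t := tau
  have h1 : IsTopologicalRing K := tau_ring
  apply IsTopologicalAddGroup.t2Space_of_zero_sep
  intro x hx
  obtain ⟨N, hN⟩ := exists_lowK x
  refine ⟨U N 1, mem_tau.mpr ⟨N, 1, one_pos, subset_rfl⟩, ?_⟩
  rw [mem_U]
  have : {w : Om | ¬ V N w x < 1} = Set.univ := by
    ext w
    simp [V_low hN hx]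
  rw [this, measure_univ]
  exact lt_irrefl _

/-! ### the topology is not locally bounded -/

lemma tau_not_bdd : ¬ ∃ S ∈ @nhds K tau 0, ∀ V' ∈ @nhds K tau 0, ∃ W ∈ @nhds K tau 0,
    ∀ x ∈ W, ∀ u ∈ S, x * u ∈ V' := by
  rintro ⟨S, hS, h⟩
  obtain ⟨m, ε, hε, hU⟩ := mem_tau.mp hS
  -- choose `k`
  obtain ⟨k, hk⟩ : ∃ k : ℕ, (2⁻¹ : ℝ≥0∞) ^ (k + 1) < ε := by
    have h1 := ENNReal.tendsto_pow_atTop_nhds_zero_of_lt_one (r := 2⁻¹) (by simp)
    have h2 := (h1.comp (tendsto_add_atTop_nat 1)).eventually (gt_mem_nhds hε)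
    exact h2.exists
  have hpos : (0 : ℝ≥0∞) < (2⁻¹ : ℝ≥0∞) ^ (k + 1) := by
    apply ENNReal.pow_pos
    simp
  obtain ⟨W, hW, h⟩ := h (U 0 ((2⁻¹) ^ (k + 1))) (mem_tau.mpr ⟨0, _, hpos, subset_rfl⟩)
  obtain ⟨n, δ, hδ, hW'⟩ := mem_tau.mp hW
  -- a nonzero element of `W`
  have hd : dd n ∈ W := hW' (mem_U_of_forall hδ (V_dd n))
  obtain ⟨N, hN⟩ := exists_lowK (dd n)
  set M := max m N with hM
  have hx : (SS M k)⁻¹ ∈ S := by
    apply hU
    apply U_mono (le_max_left m N) le_rfl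
    rw [mem_U]
    refine lt_of_le_of_lt (measure_mono ?_) (lt_of_eq_of_lt (mu_block M (k + 1)) hk)
    intro w hw
    simp only [Set.mem_ofPred_eq] at hw ⊢
    by_contra h'
    push Not at h'
    obtain ⟨i, hi, hi'⟩ := h'
    apply hw
    rw [map_inv₀]
    apply inv_lt_one_of_one_lt₀
    exact V_SS_gt ⟨i, hi, by simpa using hi'⟩
  have h1 := h _ hd _ hx
  rw [mem_U] at h1
  refine absurd h1 (not_lt.mpr ?_)
  rw [← mu_block M (k + 1)]
  apply measure_mono
  intro w hw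
  simp only [Set.mem_ofPred_eq] at hw ⊢
  rw [not_lt]
  have h2 : V M w (SS M k) < 1 := V_SS_lt hw
  have h3 : V M w (SS M k) ≠ 0 := (Valuation.ne_zero_iff _).mpr (SS_ne M k)
  have h4 : 1 < V M w (dd n * (SS M k)⁻¹) := by
    rw [map_mul, V_low (hN.mono (le_max_right m N)) (dd_ne n), one_mul, map_inv₀]
    exact (one_lt_inv₀ (zero_lt_iff.mpr h3)).mpr h2
  exact (V_one_lt (Nat.zero_le M) h4).le

/-! ### the topology is minimal -/

lemma dep_V {n N : ℕ} {x : K} (hx : LowK N x) : Dep n N {w | V n w x < 1} := by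
  intro w w' h
  simp only [Set.mem_ofPred_eq]
  rw [V_congr hx h]

/-- the key step, inside a coarser Hausdorff field topology -/
lemma key_min [TopologicalSpace K] [IsTopologicalDivisionRing K] [T2Space K]
    (hle : ∀ s ∈ 𝓝 (0 : K), ∃ (n : ℕ) (ε : ℝ≥0∞), 0 < ε ∧ U n ε ⊆ s)
    (m : ℕ) (ε : ℝ≥0∞) (hε : 0 < ε) : U m ε ∈ 𝓝 (0 : K) := by
  by_contra hcon
  -- continuity facts
  have hadd : ∀ W ∈ 𝓝 (0 : K), ∃ W' ∈ 𝓝 (0 : K), ∀ x ∈ W', ∀ y ∈ W', x + y ∈ W := by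
    intro W hW
    obtain ⟨V', hV, h⟩ := exists_nhds_zero_half hW
    exact ⟨V', hV, h⟩
  have hmul : ∀ W ∈ 𝓝 (0 : K), ∃ W' ∈ 𝓝 (0 : K), ∀ x ∈ W', ∀ y ∈ W', x * y ∈ W := by
    intro W hW
    have h3 := (continuous_mul (M := K)).tendsto (0, 0)
    rw [mul_zero, nhds_prod_eq] at h3
    obtain ⟨A, hA, A', hA', h5⟩ := Filter.mem_prod_iff.mp (h3 hW)
    exact ⟨A ∩ A', Filter.inter_mem hA hA', fun x hx y hy => h5 (Set.mk_mem_prod hx.1 hy.2)⟩
  have hcm : ∀ W ∈ 𝓝 (0 : K), ∀ c : K, c ≠ 0 → ∃ y ∈ W, ε ≤ mu {w | ¬ V m w (c * y) < 1} := by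
    intro W hW c hc
    by_contra hno
    apply hcon
    have h3 : {x : K | c⁻¹ * x ∈ W} ∈ 𝓝 (0 : K) := by
      have h4 := (continuous_const_mul (M := K) c⁻¹).tendsto 0
      rw [mul_zero] at h4
      exact h4 hW
    refine Filter.mem_of_superset h3 ?_
    intro x hx
    by_contra hxU
    apply hno
    refine ⟨c⁻¹ * x, hx, ?_⟩
    rw [mul_inv_cancel_left₀ hc]
    exact not_lt.mp hxU
  -- the main induction
  have key : ∀ r : ℕ, ∀ W ∈ 𝓝 (0 : K), ∀ n, m ≤ n → ∃ h ∈ W, ∃ N ≥ n, ∃ C : Set Om,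
      Dep n N C ∧ mu C ≤ (1 - ε) ^ r ∧ NN h ∧ ∀ w ∉ C, 1 < V n w h := by
    intro r
    induction r with
    | zero =>
      intro W hW n _
      refine ⟨0, mem_of_mem_nhds hW, n, le_rfl, Set.univ, ?_, by simp, NN.zero, ?_⟩
      · intro w w' _; simp
      · intro w hw; simp at hw
    | succ r ih =>
      intro W hW n hn
      obtain ⟨W1, hW1, hW1'⟩ := hadd W hW
      obtain ⟨W2, hW2, hW2'⟩ := hmul W1 hW1
      obtain ⟨y, hy, hy'⟩ := hcm W2 hW2 (dd n) (dd_ne n)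
      obtain ⟨N0, hN0⟩ := exists_lowK (dd n * y)
      set N1 := max n N0 with hN1
      have hlow : LowK N1 (dd n * y) := hN0.mono (le_max_right _ _)
      obtain ⟨h, hh, N2, hN2, C, hC1, hC2, hC3, hC4⟩ := ih W1 hW1 N1 (hn.trans (le_max_left _ _))
      set A : Set Om := {w | V n w (dd n * y) < 1} with hA
      have hAdep : Dep n N1 A := dep_V hlow
      have hAmu : mu A ≤ 1 - ε := by
        have h3 : mu Aᶜ = 1 - mu A := by
          rw [measure_compl hAdep.measurableSet (measure_ne_top _ _), measure_univ]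
        have h4 : ε ≤ mu Aᶜ := by
          refine hy'.trans (measure_mono ?_)
          intro w hw hw'
          simp only [Set.mem_ofPred_eq] at hw
          exact hw (V_lt_one hn hw')
        rw [h3] at h4
        have h5 : mu A ≤ 1 := prob_le_one
        have h6 : mu A ≠ ⊤ := measure_ne_top _ _
        have h7 : ε ≠ ⊤ := ne_top_of_le_ne_top (by simp) h4
        have h8 : mu A + ε ≤ 1 := by
          calc mu A + ε ≤ mu A + (1 - mu A) := by gcongr
            _ = 1 := add_tsub_cancel_of_le h5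
        exact ENNReal.le_sub_of_add_le_right h7 h8
      refine ⟨y * y + h, hW1' _ (hW2' _ hy _ hy) _ hh, N2, (le_max_left n N0).trans hN2, A ∩ C,
        ?_, ?_, (NN.sq y).add hC3, ?_⟩
      · exact (hAdep.mono le_rfl hN2).inter (hC1.mono (le_max_left _ _) le_rfl)
      · rw [hAdep.indep hC1 le_rfl, pow_succ, mul_comm]
        gcongr
      · intro w hw
        by_cases hwA : w ∈ A
        · have hwC : w ∉ C := fun h' => hw ⟨hwA, h'⟩
          refine lt_of_lt_of_le ?_ ((NN.sq y).V_le' hC3 n w)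
          exact V_one_lt (le_max_left n N0) (hC4 w hwC)
        · refine lt_of_lt_of_le ?_ ((NN.sq y).V_le hC3 n w)
          have h3 : ¬ V n w (dd n * y) < 1 := hwA
          rw [not_lt, map_mul] at h3
          have h4 : 1 < V n w y := by
            by_contra h5
            rw [not_lt] at h5
            exact absurd (mul_lt_one_of_nonneg_of_lt_one_left zero_le (V_dd n w) h5)
              (not_lt.mpr h3)
          rw [map_mul]
          exact one_lt_mul_of_lt_of_le h4 h4.le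
  -- a neighbourhood avoiding `1`
  obtain ⟨W0, hW0, hW0'⟩ : ∃ W ∈ 𝓝 (0 : K), ∀ x ∈ W, ∀ y ∈ W, x * y ≠ 1 := by
    have h3 : ({1}ᶜ : Set K) ∈ 𝓝 (0 : K) := isOpen_compl_singleton.mem_nhds (by simp)
    obtain ⟨W, hW, hW'⟩ := hmul _ h3
    exact ⟨W, hW, fun x hx y hy => by simpa using hW' x hx y hy⟩
  obtain ⟨n, δ, hδ, hU'⟩ := hle W0 hW0
  obtain ⟨r, hr'⟩ : ∃ r : ℕ, (1 - ε : ℝ≥0∞) ^ r < min δ 1 := by
    have h3 := ENNReal.tendsto_pow_atTop_nhds_zero_of_lt_one (r := 1 - ε)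
      (ENNReal.sub_lt_self (by simp) (by simp) hε.ne')
    have h4 := h3.eventually (gt_mem_nhds (lt_min hδ one_pos))
    exact h4.exists
  obtain ⟨h, hh, N, -, C, -, hC2, -, hC4⟩ := key r W0 hW0 (max n m) (le_max_right _ _)
  have hC5 : mu C < min δ 1 := lt_of_le_of_lt hC2 hr'
  have hh0 : h ≠ 0 := by
    rintro rfl
    have h3 : C = Set.univ := by
      ext w
      simp only [Set.mem_univ, iff_true]
      by_contra hw
      have := hC4 w hw
      rw [map_zero] at this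
      exact absurd this (not_lt.mpr zero_le)
    rw [h3, measure_univ] at hC5
    exact absurd hC5 (not_lt.mpr (min_le_right _ _))
  have h3 : h⁻¹ ∈ U n δ := by
    rw [mem_U]
    refine lt_of_le_of_lt (measure_mono ?_) (hC5.trans_le (min_le_left _ _))
    intro w hw
    simp only [Set.mem_ofPred_eq] at hw
    by_contra hwC
    apply hw
    have h4 := V_one_lt (le_max_left n m) (hC4 w hwC)
    rw [map_inv₀]
    exact inv_lt_one_of_one_lt₀ h4
  exact hW0' h hh h⁻¹ (hU' h3) (mul_inv_cancel₀ hh0)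

lemma tau_min (t' : TopologicalSpace K) (h1 : @IsTopologicalDivisionRing K _ t')
    (h2 : @T2Space K t') (hle : tau ≤ t') : t' = tau := by
  have hr : @IsTopologicalRing K t' _ := h1.toIsTopologicalRing
  have hg' : @IsTopologicalAddGroup K t' _ := hr.to_topologicalAddGroup
  have hg : @IsTopologicalAddGroup K tau _ := @IsTopologicalRing.to_topologicalAddGroup K _ tau tau_ring
  have hn : @nhds K tau 0 ≤ @nhds K t' 0 := nhds_mono hle
  have hle' : ∀ s ∈ @nhds K t' 0, ∃ (n : ℕ) (ε : ℝ≥0∞), 0 < ε ∧ U n ε ⊆ s := by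
    intro s hs
    exact mem_tau.mp (hn hs)
  have hk := @key_min t' h1 h2 hle'
  refine @IsTopologicalAddGroup.ext K _ t' tau hg' hg (le_antisymm ?_ hn)
  intro s hs
  obtain ⟨m, ε, hε, hU⟩ := mem_tau.mp hs
  exact Filter.mem_of_superset (hk m ε hε) hU

end Pool.Agent.MinTop828
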